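import Pool.Agent.H65.SquierAb
import Pool.Agent.H65.Thom8

namespace Pool.Agent.Results.MP_24b811_al.NotDiagram

open Pool.Agent.H65.Squier Pool.Agent.H65.Thom

/-- A subgroup of Thompson's group `F` that is not isomorphic to any diagram group. -/
theorem result : ∃ H : Subgroup ThompsonF, ∀ (A : Type) (R : Set (List A × List A)) (w : Vtx R),
    (∀ r ∈ R, r.1 ≠ [] ∧ r.2 ≠ []) → IsEmpty (H ≃* DiagramGroup R w) := by
  obtain ⟨H, ψ, x, h1, h2⟩ := exists_sub
  refine ⟨H, fun A R w hR => ⟨fun e => h1 ?_⟩⟩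
  have h3 : e x ^ 2 ∈ commutator _ := by
    rw [← map_pow]
    exact (QuotientGroup.eq_one_iff _).1
      (Abelianization.commutator_subset_ker (Abelianization.of.comp e.toMonoidHom) h2)
  simpa using Abelianization.commutator_subset_ker (ψ.comp e.symm.toMonoidHom)
    (ab_tf hR two_ne_zero h3)

end Pool.Agent.Results.MP_24b811_al.NotDiagram
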